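import Pool.Agent.MP_369736_co.Cover

set_option autoImplicit false

namespace Pool.Agent.Results.MP_369736_co.TwoFactorsSixOrSevenParts

open Pool.Agent.MP_369736_co

/-- For `r = 6` and for `r = 7` every complete `r`-partite graph with an even number of edges is
divisible by `2`: the divisibility condition is sufficient for `(r, 2)`. -/
theorem result : ∀ r : ℕ, 6 ≤ r → r ≤ 7 → ConditionSufficient r 2 :=
  fun _ h1 h2 => condition_sufficient h1 h2

end Pool.Agent.Results.MP_369736_co.TwoFactorsSixOrSevenParts
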